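import Pool.Agent.P.MP_1bacd4_an.CO.Step
import Pool.Agent.P.MP_1bacd4_an.Glue
import Pool.Agent.P.MP_1bacd4_an.Seed
import Pool.Agent.P.MP_1bacd4_an.SchurP

/-! Operators between two of the spaces are nuclear: the real case. -/

set_option autoImplicit false

namespace Pool.Agent.P.MP_1bacd4_an.CO

open Finset Filter Topology

noncomputable section

variable {X X' Y Y' : Type} [NormedAddCommGroup X] [NormedSpace ℝ X] [NormedAddCommGroup X']
  [NormedSpace ℝ X'] [NormedAddCommGroup Y] [NormedSpace ℝ Y] [NormedAddCommGroup Y']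
  [NormedSpace ℝ Y']

open End1A in
theorem twoS_of {β : Y' →L[ℝ] X' →L[ℝ] ℝ}
    (hn : ∀ x : X', ∀ δ : ℝ, 0 < δ → ∃ y : Y', ‖y‖ ≤ 1 ∧ ‖x‖ - δ ≤ β y x) (R : X →L[ℝ] X')
    {D : ℝ} (C0 : 0 ≤ D) {n : ℕ} {x : Fin n → X}
    (hl : ∀ y : Fin n → Y', WL y 1 → |∑ a, β (y a) (R (x a))| ≤ D) :
    ∑ i, ‖R (x i)‖ ^ 2 ≤ D ^ 2 := by
  set N := n2 (fun i => ‖R (x i)‖) with hN
  have N2 : N ^ 2 = ∑ i, ‖R (x i)‖ ^ 2 := n2_sq _
  have N0 : 0 ≤ N := End1A.n2_nonneg _
  rw [← N2]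
  refine pow_le_pow_left₀ N0 ?_ 2
  rcases N0.eq_or_lt with h | h
  · rw [← h]; exact C0
  let a : Fin n → ℝ := fun i => ‖R (x i)‖ / N
  have a0 : ∀ i, 0 ≤ a i := fun i => by positivity
  have a2 : n2 a = 1 := by
    have : ∑ i, a i ^ 2 = 1 := by
      simp only [a, div_pow]
      rw [← sum_div, ← N2, div_self (by positivity)]
    simp only [n2, this, Real.sqrt_one]
  have aN : ∑ i, a i * ‖R (x i)‖ = N := by
    have : ∀ i, a i * ‖R (x i)‖ = ‖R (x i)‖ ^ 2 / N := fun i => by simp only [a]; ring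
    simp only [this]
    rw [← sum_div, ← N2]; field_simp
  have A0 : 0 ≤ ∑ i, a i := sum_nonneg fun i _ => a0 i
  have main : ∀ δ : ℝ, 0 < δ → N ≤ D + δ * ∑ i, a i := by
    intro δ hδ
    choose y' hy' hy'' using fun i => hn (R (x i)) δ hδ
    have hy : WL (fun i => a i • y' i) 1 := by
      intro c
      have h1 : ‖∑ i, c i • a i • y' i‖ ≤ ∑ i, |c i| * a i := by
        refine (norm_sum_le _ _).trans (sum_le_sum fun i _ => ?_)
        rw [norm_smul, norm_smul, Real.norm_eq_abs, Real.norm_eq_abs, abs_of_nonneg (a0 i)]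
        exact mul_le_mul_of_nonneg_left (by nlinarith [hy' i, a0 i]) (abs_nonneg _)
      have h2 := cs (fun i => |c i|) a
      have h3 : n2 (fun i => |c i|) = n2 c := by simp only [n2, sq_abs]
      rw [h3, a2] at h2
      linarith
    have h2 := (abs_le.1 (hl _ hy)).2
    have h3 : ∑ i, β (a i • y' i) (R (x i)) = ∑ i, a i * β (y' i) (R (x i)) := by
      refine sum_congr rfl fun i _ => ?_
      simp only [map_smul, smul_apply, smul_eq_mul]
    have h4 : ∑ i, a i * (‖R (x i)‖ - δ) ≤ ∑ i, a i * β (y' i) (R (x i)) :=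
      sum_le_sum fun i _ => mul_le_mul_of_nonneg_left (hy'' i) (a0 i)
    have h5 : ∑ i, a i * (‖R (x i)‖ - δ) = N - δ * ∑ i, a i := by
      rw [← aN, mul_sum, ← sum_sub_distrib]
      exact sum_congr rfl fun i _ => by ring
    linarith
  refine le_of_forall_pos_le_add fun ε hε => ?_
  have h2 := main (ε / (∑ i, a i + 1)) (by positivity)
  have h3 : ε / (∑ i, a i + 1) * ∑ i, a i ≤ ε := by
    rw [div_mul_eq_mul_div, div_le_iff₀ (by positivity)]
    nlinarith
  linarith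

open End3A in
theorem finNuc_of [CompleteSpace X] {C : ℝ} (h1 : 1 ≤ C) (hct : CT C X)
    (hr : ∀ (n : ℕ) (x : Fin n → X), WL x 1 →
      ∃ Ψ : (Fin n → Bool) → X, (∀ ε, ‖Ψ ε‖ ≤ C) ∧ ∀ i, co Ψ {i} = x i) :
    FinNuc X (2 * (2 * C ^ 3)) := by
  have hs : ∀ F : Fam X, ∃ (N : X → X) (F' : Fam X), NucC N (2 * C ^ 3) ∧
      ∀ x, F.op x = N x + (1 / 2 : ℝ) • F'.op x := fun F => by
    obtain ⟨Φ, hΦ, hΦ'⟩ := ext cube C X (by linarith) hct (Fin F.n) F.φ 1 zero_le_one F.hφ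
    obtain ⟨Ψ, hΨ, hΨ'⟩ := hr F.n F.z F.hz
    obtain ⟨N, φ', z', hN, h2, h3, h4⟩ :=
      End3A.step cube C h1 Φ Ψ (fun ε => by simpa using hΦ ε) hΨ
    let e := (Fintype.equivFin (Finset (Fin F.n))).symm
    refine ⟨N, ⟨_, fun j => φ' (e j), fun j => z' (e j), wl_equiv e _ _ h2, wl_equiv e _ _ h3⟩,
      hN, fun x => ?_⟩
    have h5 := h4 x
    simp only [hΦ', hΨ'] at h5
    simp only [Fam.op]
    rw [h5, e.sum_comp fun A => φ' A x • z' A]
  intro n φ z a b ha hb hφ hz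
  rcases ha.eq_or_lt with rfl | ha
  · have := wl_zero φ hφ
    simpa [this] using nuc_zero (X := X)
  rcases hb.eq_or_lt with rfl | hb
  · have := wl_zero z hz
    simpa [this] using nuc_zero (X := X)
  let F : Fam X := ⟨n, fun i => a⁻¹ • φ i, fun i => b⁻¹ • z i,
    wl_mul φ a a⁻¹ (fun _ => a⁻¹) ha.le (by positivity) hφ
      (fun _ => by rw [abs_of_pos (by positivity)]) (by rw [mul_inv_cancel₀ ha.ne']),
    wl_mul z b b⁻¹ (fun _ => b⁻¹) hb.le (by positivity) hz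
      (fun _ => by rw [abs_of_pos (by positivity)]) (by rw [mul_inv_cancel₀ hb.ne'])⟩
  have h2 := nuc_smul _ _ (a * b) (by positivity) (fam_nuc nucSer (2 * C ^ 3) hs F)
  have h3 : (fun x => (a * b) • F.op x) = fun x => ∑ i, φ i x • z i := by
    funext x
    simp only [Fam.op, F, smul_sum, smul_smul, smul_apply, smul_eq_mul]
    refine sum_congr rfl fun i _ => ?_
    congr 1
    field_simp
  rw [h3] at h2
  have h4 : a * b * (2 * (2 * C ^ 3)) = 2 * (2 * C ^ 3) * a * b := by ring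
  rwa [h4] at h2

open End1A in
theorem weak_null {z : ℕ → X} (hz : ∀ N : ℕ, WL (fun i : Fin N => z i) 1) (f : X →L[ℝ] ℝ) :
    Tendsto (fun n => f (z n)) atTop (𝓝 0) := by
  have h1 : ∀ N, ∑ i ∈ range N, f (z i) ^ 2 ≤ ‖f‖ ^ 2 := fun N => by
    rw [← Fin.sum_univ_eq_sum_range (fun i => f (z i) ^ 2), ← n2_sq]
    have h2 := hz N fun i => f (z i)
    set r := n2 fun i : Fin N => f (z i) with hr
    have h0 : 0 ≤ r := End1A.n2_nonneg _
    have h3 : r ^ 2 = f (∑ i : Fin N, f (z i) • z i) := by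
      rw [hr, n2_sq, map_sum]
      simp only [map_smul, smul_eq_mul, pow_two]
    have h4 := (Real.le_norm_self _).trans ((f.le_opNorm (∑ i : Fin N, f (z i) • z i)).trans
      (mul_le_mul_of_nonneg_left h2 (norm_nonneg f)))
    have h5 := norm_nonneg f
    nlinarith [sq_nonneg (r - ‖f‖)]
  have h6 := (summable_of_sum_range_le (fun i => sq_nonneg (f (z i))) h1).tendsto_atTop_zero
  have h7 := h6.sqrt
  rw [Real.sqrt_zero] at h7
  refine tendsto_zero_iff_abs_tendsto_zero _ |>.2 (h7.congr fun n => ?_)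
  exact Real.sqrt_sq_eq_abs _

theorem noL2_prod (h : Chain X) (h' : Chain X') : NoL2 (X × X') := by
  intro z δ hδ hz hw
  have h1 := schurP adm h (fun n => (z n).1) fun f =>
    weak_null hw (f.comp (ContinuousLinearMap.fst ℝ X X'))
  have h2 := schurP adm h' (fun n => (z n).2) fun f =>
    weak_null hw (f.comp (ContinuousLinearMap.snd ℝ X X'))
  have h3 : Tendsto z atTop (𝓝 0) := h1.prodMk_nhds h2
  have h4 := ge_of_tendsto' h3.norm hz
  rw [norm_zero] at h4
  linarith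

theorem nuc_prod [CompleteSpace X] [CompleteSpace X'] {β : Y →L[ℝ] X →L[ℝ] ℝ}
    {β' : Y' →L[ℝ] X' →L[ℝ] ℝ} {C : ℝ} (h : Good X Y β C) (h' : Good X' Y' β' C) (hβ : Bd β')
    (hx : ∀ (n : ℕ) (y : Fin n → Y') (x : Fin n → X), WL y 1 → WL x 1 →
      ∀ b : Y' →L[ℝ] X →L[ℝ] ℝ, Bd b → |∑ a, b (y a) (x a)| ≤ C) (S : X →L[ℝ] X') :
    ∃ D, NucC (fun w : X × X' => ((0, S w.1) : X × X')) D := by
  have h1 := h.one_le
  let p := ContinuousLinearMap.fst ℝ X X'
  let p' := ContinuousLinearMap.snd ℝ X X'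
  have hp : ∀ z : X × X', ‖p z‖ ≤ ‖z‖ := norm_fst_le
  have hp' : ∀ z : X × X', ‖p' z‖ ≤ ‖z‖ := norm_snd_le
  let R : X × X' →L[ℝ] X × X' := (ContinuousLinearMap.inr ℝ X X').comp (S.comp p)
  have hR : TwoS R (C * (‖S‖ + 1)) := fun n w hw => by
    have hS : 0 < ‖S‖ + 1 := by positivity
    have e : ∀ i, ‖R (w i)‖ = ‖S (p (w i))‖ := fun i => by
      change ‖((0, S (p (w i))) : X × X')‖ = _
      simp
    simp only [e]
    refine twoS_of h'.norming S (by positivity) fun y hy => ?_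
    let b : Y' →L[ℝ] X →L[ℝ] ℝ :=
      β'.bilinearComp (ContinuousLinearMap.id ℝ Y') ((‖S‖ + 1)⁻¹ • S)
    have hb : Bd b := fun y x => by
      refine (hβ y (((‖S‖ + 1)⁻¹ • S) x)).trans (mul_le_mul_of_nonneg_left ?_ (norm_nonneg _))
      rw [smul_apply, norm_smul, norm_inv, Real.norm_of_nonneg hS.le, inv_mul_le_iff₀ hS]
      exact (S.le_opNorm x).trans (mul_le_mul_of_nonneg_right (by linarith) (norm_nonneg _))
    have h3 := hx n y _ hy (wl_clm p hp hw) b hb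
    have h4 : ∑ a, β' (y a) (S (p (w a))) = (‖S‖ + 1) * ∑ a, b (y a) (p (w a)) := by
      rw [mul_sum]
      refine sum_congr rfl fun a _ => ?_
      simp only [b, map_smul, smul_apply, ContinuousLinearMap.bilinearComp_apply,
        ContinuousLinearMap.id_apply, smul_eq_mul]
      field_simp
    rw [h4, abs_mul, abs_of_pos hS, mul_comm]
    exact mul_le_mul_of_nonneg_right h3 hS.le
  obtain ⟨q, hq1, hq2⟩ := piet _ R _ hR
  have hct : CT (C * 2) (X × X') := ct_sum (ContinuousLinearMap.inl ℝ X X')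
    (ContinuousLinearMap.inr ℝ X X') p p' (fun z => by simp) (fun z => by simp)
    (fun z => by simp [p, p']) (fun z => by linarith [hp z, hp' z]) (by linarith) h.ct h'.ct
  have hF := finNuc_of (C := C * 2) (by linarith) hct fun n w hw => by
    obtain ⟨Ψ, k1, k2⟩ := h.radx n _ (wl_clm p hp hw)
    obtain ⟨Ψ', k1', k2'⟩ := h'.radx n _ (wl_clm p' hp' hw)
    refine ⟨fun ε => (Ψ ε, Ψ' ε), fun ε => ?_, fun i => Prod.ext ?_ ?_⟩
    · exact max_le ((k1 ε).trans (by linarith)) ((k1' ε).trans (by linarith))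
    · refine Eq.trans ?_ (k2 i)
      simp only [co, av, Prod.smul_fst, Prod.fst_sum]
    · refine Eq.trans ?_ (k2' i)
      simp only [co, av, Prod.smul_snd, Prod.snd_sum]
  exact hilb nucSer _ _ (by positivity) hF (noL2_prod h.chain h'.chain) R _ q hq1 hq2

end

end Pool.Agent.P.MP_1bacd4_an.CO
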