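import Pool.Agent.P.MP_1bacd4_an.CO.Tree

/-! Passage to the limit along the branches. -/

set_option autoImplicit false

namespace Pool.Agent.P.MP_1bacd4_an.CO

open Finset Filter Topology RecA

noncomputable section

theorem dens {K : ℝ} {X Y : Type} [NormedAddCommGroup X] [NormedSpace ℝ X] [NormedAddCommGroup Y]
    [NormedSpace ℝ Y] {s s' : ℕ → Stg K} (h : ∀ n, Hom (s n) (s (n + 1)))
    (h' : ∀ n, Hom (s' n) (s' (n + 1))) (i : ∀ n, (s n).E →ₗᵢ[ℝ] X) (k : ∀ n, (s' n).F →ₗᵢ[ℝ] Y)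
    (hi : ∀ n x, i (n + 1) ((h n).jE x) = i n x) (hk : ∀ n y, k (n + 1) ((h' n).jF y) = k n y)
    (hdX : ∀ x : X, ∀ δ : ℝ, 0 < δ → ∃ n e, ‖x - i n e‖ < δ)
    (hdY : ∀ y : Y, ∀ δ : ℝ, 0 < δ → ∃ n e, ‖y - k n e‖ < δ)
    (q : ∀ m, ℕ → ℕ → Rq (s m).E (s' m).F)
    (hd : ∀ m n : ℕ, Dense {p : (s m).E × (Fin n → (s' m).F) × (Fin n → (s m).E) |
      ∃ j, q m m j = (p.1, ⟨n, p.2⟩)})
    (hq2 : ∀ m n j, n ≠ m + 1 → q (m + 1) n j = (q m n j).map (h m).jE (h' m).jF)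
    (P : Rq X Y → Prop)
    (hP : ∀ᶠ m in atTop, P (((q m m.unpair.1 m.unpair.2).map (h m).jE (h' m).jF).map
      (i (m + 1)) (k (m + 1)))) (n : ℕ) :
    Dense {p : X × (Fin n → Y) × (Fin n → X) | P (p.1, ⟨n, p.2⟩)} := by
  have hpush : ∀ m (r : Rq (s m).E (s' m).F),
      (r.map (h m).jE (h' m).jF).map (i (m + 1)) (k (m + 1)) = r.map (i m) (k m) := fun m r => by
    simp only [Rq.map, hi, hk]
  have hrow : ∀ n j m, n ≤ m → (q m n j).map (i m) (k m) = (q n n j).map (i n) (k n) := by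
    intro n j m hm
    induction m, hm using Nat.le_induction with
    | base => rfl
    | succ m hm ih => rw [hq2 m n j (by omega), hpush, ih]
  have hout : ∀ᶠ n in atTop, ∀ j, P ((q n n j).map (i n) (k n)) := by
    obtain ⟨N, hN⟩ := eventually_atTop.1 hP
    refine eventually_atTop.2 ⟨N, fun n hn j => ?_⟩
    have h3 := hN (Nat.pair n j) (hn.trans (Nat.left_le_pair n j))
    rwa [hpush, Nat.unpair_pair, hrow n j _ (Nat.left_le_pair n j)] at h3
  refine dense_closure.1 fun p => Metric.mem_closure_iff.2 fun δ hδ => ?_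
  obtain ⟨m, hm, ⟨e0, he0⟩, ⟨e1, he1⟩, e2, he2⟩ :=
    (hout.and ((approx (fun m => i m) (fun m => (h m).jE) hi hdX (fun _ : Unit => p.1) hδ).and
      ((approx (fun m => k m) (fun m => (h' m).jF) hk hdY p.2.1 hδ).and
        (approx (fun m => i m) (fun m => (h m).jE) hi hdX p.2.2 hδ)))).exists
  let F : (s m).E × (Fin n → (s' m).F) × (Fin n → (s m).E) → X × (Fin n → Y) × (Fin n → X) :=
    fun z => (i m z.1, fun a => k m (z.2.1 a), fun a => i m (z.2.2 a))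
  have hF : Continuous F := by
    have := (i m).continuous
    have := (k m).continuous
    fun_prop
  refine ⟨F (e0 (), e1, e2), map_mem_closure hF (hd m n _) ?_, ?_⟩
  · rintro z ⟨j, hj⟩
    have h3 := hm j
    rw [hj] at h3
    exact h3
  · rw [Prod.dist_eq, Prod.dist_eq]
    exact max_lt ((dist_pi_lt_iff hδ).1 he0 ()) (max_lt he1 he2)

theorem cross_of {c : ℝ} (hc : 0 < c) {X Y : Type} [NormedAddCommGroup X] [NormedSpace ℝ X]
    [NormedAddCommGroup Y] [NormedSpace ℝ Y]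
    (hden : ∀ n : ℕ, Dense {p : X × (Fin n → Y) × (Fin n → X) |
      OutX (E := X) (F := Y) c (p.1, ⟨n, p.2⟩)})
    (n : ℕ) (y : Fin n → Y) (x : Fin n → X) (hy : WL y 1) (hx : WL x 1)
    (b : Y →L[ℝ] X →L[ℝ] ℝ) (hb : Bd b) : |∑ a, b (y a) (x a)| ≤ 4 / c ^ 2 := by
  have f0 : Dense {p : (Fin n → Y) × (Fin n → X) | OutX (E := X) (F := Y) c (0, ⟨n, p⟩)} := by
    refine Dense.mono ?_ (Prod.snd_surjective.denseRange.dense_image continuous_snd (hden n))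
    rintro _ ⟨p, hp, rfl⟩
    exact hp
  have f1 := mem_closure_iff_frequently.1
    (f0 (fun a => (1 / 2 : ℝ) • y a, fun a => (1 / 2 : ℝ) • x a))
  have e1 := (continuous_fst.tendsto ((fun a => (1 / 2 : ℝ) • y a,
    fun a => (1 / 2 : ℝ) • x a) : (Fin n → Y) × (Fin n → X))).eventually (wl_half hy)
  have e2 := (continuous_snd.tendsto ((fun a => (1 / 2 : ℝ) • y a,
    fun a => (1 / 2 : ℝ) • x a) : (Fin n → Y) × (Fin n → X))).eventually (wl_half hx)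
  have hcl : IsClosed {p : (Fin n → Y) × (Fin n → X) | c ^ 2 * |∑ a, b (p.1 a) (p.2 a)| ≤ 1} :=
    isClosed_le (by fun_prop) continuous_const
  have f2 : ∃ᶠ p in 𝓝 ((fun a => (1 / 2 : ℝ) • y a, fun a => (1 / 2 : ℝ) • x a) :
      (Fin n → Y) × (Fin n → X)),
      p ∈ {p : (Fin n → Y) × (Fin n → X) | c ^ 2 * |∑ a, b (p.1 a) (p.2 a)| ≤ 1} := by
    refine (f1.and_eventually (e1.and e2)).mono ?_
    rintro p ⟨hx0, a1, a2⟩
    exact hx0 a1 a2 b hb
  have h3 := hcl.closure_subset f2.mem_closure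
  have h4 : ∑ a, b (y a) (x a) = 4 * ∑ a, b ((1 / 2 : ℝ) • y a) ((1 / 2 : ℝ) • x a) := by
    rw [mul_sum]
    refine sum_congr rfl fun a _ => ?_
    simp only [map_smul, smul_apply, smul_eq_mul]
    ring
  have h5 : |∑ a, b ((1 / 2 : ℝ) • y a) ((1 / 2 : ℝ) • x a)| ≤ 1 / c ^ 2 := by
    rw [le_div_iff₀ (by positivity), mul_comm]
    exact h3
  rw [h4, abs_mul, abs_of_pos (by norm_num : (0 : ℝ) < 4)]
  calc _ ≤ 4 * (1 / c ^ 2) := mul_le_mul_of_nonneg_left h5 (by norm_num)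
    _ = 4 / c ^ 2 := by ring

theorem good_of (hC : S_Cube) (hA : S_Adm) {K c : ℝ} (hK : 1 ≤ K) (hc : 0 < c) {X Y : Type}
    [NormedAddCommGroup X] [NormedSpace ℝ X] [NormedAddCommGroup Y] [NormedSpace ℝ Y]
    {s : ℕ → Stg K} (h : ∀ n, Hom (s n) (s (n + 1))) (i : ∀ n, (s n).E →ₗᵢ[ℝ] X)
    (β : Y →L[ℝ] X →L[ℝ] ℝ) (hi : ∀ n x, i (n + 1) ((h n).jE x) = i n x)
    (hdX : ∀ x : X, ∀ δ : ℝ, 0 < δ → ∃ n e, ‖x - i n e‖ < δ) (hβ : Bd β)
    (hns : ∀ m, ¬ Function.Surjective (h m).jE)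
    (hden : ∀ n : ℕ, Dense {p : X × (Fin n → Y) × (Fin n → X) | Out c β (p.1, ⟨n, p.2⟩)}) :
    Good X Y β (K + 4 / c ^ 2 + 2 / c) := by
  have hfreq : ∀ (n : ℕ) (y : Fin n → Y) (x : Fin n → X), WL y 1 → WL x 1 →
      ∑ a, β (y a) (x a) = 0 →
      ∃ᶠ p in 𝓝 ((fun a => (1 / 2 : ℝ) • y a, fun a => (1 / 2 : ℝ) • x a) :
        (Fin n → Y) × (Fin n → X)),
      (∀ b : Y →L[ℝ] X →L[ℝ] ℝ, Bd b → c ^ 2 * |∑ a, b (p.1 a) (p.2 a)| ≤ 1) ∧
      ∃ Ψ : (Fin n → Bool) → X, (∀ ε, ‖Ψ ε‖ ≤ 1) ∧ ∀ a, co Ψ {a} = c • p.2 a := by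
    intro n y x hy hx h0
    have f1 := (continuous_snd.tendsto ((0 : X), ((fun a => (1 / 2 : ℝ) • y a,
      fun a => (1 / 2 : ℝ) • x a) : (Fin n → Y) × (Fin n → X)))).frequently_map
      (p := fun p => Out c β (p.1, ⟨n, p.2⟩))
      (q := fun p => ∃ x0 : X, Out c β (x0, ⟨n, p⟩)) _ (fun p hp => ⟨p.1, hp⟩)
      (mem_closure_iff_frequently.1 (hden n _))
    have e1 := (continuous_fst.tendsto ((fun a => (1 / 2 : ℝ) • y a,
      fun a => (1 / 2 : ℝ) • x a) : (Fin n → Y) × (Fin n → X))).eventually (wl_half hy)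
    have e2 := (continuous_snd.tendsto ((fun a => (1 / 2 : ℝ) • y a,
      fun a => (1 / 2 : ℝ) • x a) : (Fin n → Y) × (Fin n → X))).eventually (wl_half hx)
    have c3 : Continuous fun p : (Fin n → Y) × (Fin n → X) => |∑ a, β (p.1 a) (p.2 a)| := by
      fun_prop
    have e3 := (c3.tendsto ((fun a => (1 / 2 : ℝ) • y a,
      fun a => (1 / 2 : ℝ) • x a) : (Fin n → Y) × (Fin n → X))).eventually
      (gt_mem_nhds (a := (1 : ℝ)) (by
        simp only [map_smul, smul_apply, ← smul_sum, h0]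
        simp))
    refine (f1.and_eventually (e1.and (e2.and e3))).mono ?_
    rintro p ⟨⟨x0, hx0⟩, a1, a2, a3⟩
    exact hx0.2 a1 a2 a3.le
  have hc4 : 0 < 4 / c ^ 2 := by positivity
  have hc2 : 0 < 2 / c := by positivity
  refine ⟨by linarith, ct_mono (K := K) ?_ (by linarith), ?_, ?_, ?_, ?_⟩
  · intro ι _ _ φ x hφ
    have hcl : IsClosed {x : ι → X | ∑ a, φ a (x a) ≤ K * av fun ε => ‖rad x ε‖} := by
      refine isClosed_le (by fun_prop) ?_
      unfold av rad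
      fun_prop
    refine hcl.closure_subset (Metric.mem_closure_iff.2 fun δ hδ => ?_)
    obtain ⟨m, e, he⟩ := (approx (fun m => i m) (fun m => (h m).jE) hi hdX x hδ).exists
    refine ⟨_, ?_, he⟩
    have h3 := (s m).cE ι (fun a => (φ a).comp (i m).toContinuousLinearMap) e fun a => by
      refine le_trans (ContinuousLinearMap.opNorm_le_bound _ (norm_nonneg _) fun z => ?_) (hφ a)
      have h4 := (∑ b, a b • φ b).le_opNorm (i m z)
      rw [(i m).norm_map] at h4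
      simpa using h4
    simp only [Set.mem_ofPred_eq, rad_map, LinearIsometry.norm_map]
    exact h3
  · intro x δ hδ
    obtain ⟨p, ⟨⟨y, hy, hy'⟩, -⟩, hp⟩ := Metric.mem_closure_iff.1
      (hden 0 (x, fun _ => 0, fun _ => 0)) (δ / 2) (by linarith)
    refine ⟨y, hy, ?_⟩
    have h3 : ‖x - p.1‖ < δ / 2 := by
      rw [← dist_eq_norm]
      exact (le_max_left _ _).trans_lt hp
    have h4 := hβ y (x - p.1)
    have h5 : ‖y‖ * ‖x - p.1‖ ≤ 1 * ‖x - p.1‖ := mul_le_mul_of_nonneg_right hy (norm_nonneg _)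
    have h6 := norm_sub_norm_le x p.1
    rw [map_sub] at h4
    have h7 := (abs_le.1 h4).1
    change β y p.1 = ‖p.1‖ at hy'
    linarith
  · intro n y x hy hx h0 S
    by_cases hS : S = 0
    · simp [hS]
    have hS' : 0 < ‖S‖ := norm_pos_iff.2 hS
    let b : Y →L[ℝ] X →L[ℝ] ℝ := β.bilinearComp (ContinuousLinearMap.id ℝ Y) (‖S‖⁻¹ • S)
    have hb : Bd b := fun y x => by
      refine (hβ y ((‖S‖⁻¹ • S) x)).trans (mul_le_mul_of_nonneg_left ?_ (norm_nonneg _))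
      rw [smul_apply, norm_smul, norm_inv, norm_norm,
        inv_mul_le_iff₀ hS']
      exact S.le_opNorm x
    have hcl : IsClosed {p : (Fin n → Y) × (Fin n → X) | c ^ 2 * |∑ a, b (p.1 a) (p.2 a)| ≤ 1} :=
      isClosed_le (by fun_prop) continuous_const
    have h3 := hcl.closure_subset
      (((hfreq n y x hy hx h0).mono fun p hp => hp.1 b hb).mem_closure)
    have h4 : ∑ a, β (y a) (S (x a)) =
        4 * ‖S‖ * ∑ a, b ((1 / 2 : ℝ) • y a) ((1 / 2 : ℝ) • x a) := by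
      rw [mul_sum]
      refine sum_congr rfl fun a _ => ?_
      simp only [b, map_smul, smul_apply,
        ContinuousLinearMap.bilinearComp_apply, ContinuousLinearMap.id_apply, smul_eq_mul]
      field_simp
      ring
    have h5 : |∑ a, b ((1 / 2 : ℝ) • y a) ((1 / 2 : ℝ) • x a)| ≤ 1 / c ^ 2 := by
      rw [le_div_iff₀ (by positivity), mul_comm]
      exact h3
    rw [h4, abs_mul, abs_of_pos (by positivity : 0 < 4 * ‖S‖)]
    calc _ ≤ 4 * ‖S‖ * (1 / c ^ 2) := mul_le_mul_of_nonneg_left h5 (by positivity)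
      _ = 4 / c ^ 2 * ‖S‖ := by ring
      _ ≤ _ := mul_le_mul_of_nonneg_right (by linarith) hS'.le
  · intro n x hx
    have c3 : Continuous fun p : (Fin n → Y) × (Fin n → X) => ∑ a, ‖x a - (2 : ℝ) • p.2 a‖ := by
      fun_prop
    have e3 := (c3.tendsto ((fun a => (1 / 2 : ℝ) • (0 : Fin n → Y) a,
      fun a => (1 / 2 : ℝ) • x a) : (Fin n → Y) × (Fin n → X))).eventually
      (gt_mem_nhds (a := (1 : ℝ)) (by simp [smul_smul]))
    obtain ⟨p, ⟨-, Ψ, h3, h4⟩, h5⟩ := ((hfreq n 0 x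
      (fun a => by
        have h9 : 0 ≤ n2 a := Real.sqrt_nonneg _
        simpa using h9) hx
      (by simp)).and_eventually e3).exists
    refine ⟨fun ε => (2 / c) • Ψ ε + rad (fun a => x a - (2 : ℝ) • p.2 a) ε, fun ε => ?_,
      fun a => ?_⟩
    · refine (norm_add_le _ _).trans ?_
      rw [norm_smul, Real.norm_of_nonneg hc2.le]
      have h6 := norm_rad_le (fun a => x a - (2 : ℝ) • p.2 a) ε
      have h7 := mul_le_mul_of_nonneg_left (h3 ε) hc2.le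
      linarith
    · rw [co_add_smul, h4, hC.co_rad, smul_smul, div_mul_cancel₀ _ hc.ne']
      abel
  · refine ⟨fun m => LinearMap.range (i m).toLinearMap, fun m => inferInstance, fun m => ?_,
      fun m hm => hns m fun z => ?_, fun x δ hδ => ?_⟩
    · have h3 := hA.map _ _ (i (m + 1)) _ _ (h m).adm
      rw [Submodule.map_top, ← LinearMap.range_comp] at h3
      have h4 : (i (m + 1)).toLinearMap ∘ₗ (h m).jE.toLinearMap = (i m).toLinearMap :=
        LinearMap.ext (hi m)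
      rwa [h4] at h3
    · have h3 : i (m + 1) z ∈ LinearMap.range (i m).toLinearMap := by
        have h4 : i (m + 1) z ∈ LinearMap.range (i (m + 1)).toLinearMap := ⟨z, rfl⟩
        exact hm.ge h4
      obtain ⟨e, he⟩ := h3
      exact ⟨e, (i (m + 1)).injective ((hi m e).trans he)⟩
    · obtain ⟨m, e, he⟩ := hdX x δ hδ
      exact ⟨m, i m e, ⟨e, rfl⟩, he⟩

/-- The family of limit spaces. -/
theorem family (hC : S_Cube) (hA : S_Adm) (h1 : S_StepA) (h2 : S_StepB) (hL : S_Lim) :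
    ∃ (X Y : (ℕ → Bool) → Type) (_ : ∀ σ, NormedAddCommGroup (X σ))
      (_ : ∀ σ, NormedSpace ℝ (X σ)) (_ : ∀ σ, CompleteSpace (X σ))
      (_ : ∀ σ, NormedAddCommGroup (Y σ)) (_ : ∀ σ, NormedSpace ℝ (Y σ))
      (β : ∀ σ, Y σ →L[ℝ] X σ →L[ℝ] ℝ) (C : ℝ),
      (∀ σ, Good (X σ) (Y σ) (β σ) C ∧ Bd (β σ)) ∧
      ∀ σ τ, σ ≠ τ → ∀ (n : ℕ) (y : Fin n → Y σ) (x : Fin n → X τ), WL y 1 → WL x 1 →
        ∀ b : Y σ →L[ℝ] X τ →L[ℝ] ℝ, Bd b → |∑ a, b (y a) (x a)| ≤ C := by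
  obtain ⟨K0, c, hK0, hc, -, hB⟩ := h2
  choose d hd using exists_den2 (K := 2 * K0)
  have hX := stepX hA (by linarith) hB
  obtain ⟨s, h, q, hq1, hq2, hq3, hq4⟩ := exists_tree (c := c) (by linarith) d fun m S r => by
    obtain ⟨S', H, k1, k2⟩ := multi hA (h1 K0 hK0) hB hX S r univ
    exact ⟨S', H, k1, fun t u => k2 (t, u) (mem_univ _)⟩
  choose X Y n1 n2 n3 n4 n5 i k β hi hk hdX hdY hβ hβ' using fun σ => hL _ (s σ) (h σ)
  have hc4 : 0 < 4 / c ^ 2 := by positivity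
  have hc2 : 0 < 2 / c := by positivity
  have d1 := fun σ => dens (s := s σ) (s' := s σ) (h σ) (h σ) (i σ) (k σ) (hi σ) (hk σ) (hdX σ)
    (hdY σ) (q σ σ) (fun m n => by rw [hq1]; exact hd _ _ n) (hq2 σ σ) (Out c (β σ))
    (Eventually.of_forall fun m => (hq3 σ m).2.map (i σ _) (k σ _) (hβ' σ _))
  have d2 := fun σ τ (hn : σ ≠ τ) => dens (s := s τ) (s' := s σ) (h τ) (h σ) (i τ) (k σ) (hi τ)
    (hk σ) (hdX τ) (hdY σ) (q σ τ) (fun m n => by rw [hq1]; exact hd _ _ n) (hq2 σ τ) (OutX c)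
    ((hq4 σ τ hn).mono fun m hm => hm.map (i τ _) (k σ _))
  have g1 := fun σ => good_of hC hA (K := 2 * K0) (by linarith) hc (s := s σ) (h σ) (i σ) (β σ)
    (hi σ) (hdX σ) (hβ σ) (fun m => (hq3 σ m).1) (d1 σ)
  have g2 := fun σ τ (hn : σ ≠ τ) => cross_of hc (d2 σ τ hn)
  have g3 : 4 / c ^ 2 ≤ 2 * K0 + 4 / c ^ 2 + 2 / c := by linarith
  exact ⟨X, Y, n1, n2, n3, n4, n5, β, _, fun σ => ⟨g1 σ, hβ σ⟩,
    fun σ τ hn n y x hy hx b hb => (g2 σ τ hn n y x hy hx b hb).trans g3⟩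

end

end Pool.Agent.P.MP_1bacd4_an.CO
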