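import Mathlib

/-! The two notions used in the statement. -/

set_option autoImplicit false

namespace Pool.Agent.P.MP_1bacd4_an.CO

/-- `T` has a nuclear representation. -/
def IsNuclearMap (𝕜 : Type) [RCLike 𝕜] {X Y : Type} [NormedAddCommGroup X] [NormedSpace 𝕜 X]
    [NormedAddCommGroup Y] [NormedSpace 𝕜 Y] (T : X → Y) : Prop :=
  ∃ f : ℕ → (X →L[𝕜] 𝕜), ∃ y : ℕ → Y, Summable (fun n => ‖f n‖ * ‖y n‖) ∧
    ∀ x : X, HasSum (fun n => f n x • y n) (T x)

/-- Weakly convergent sequences converge in norm to the same limit. -/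
def HasSchur (𝕜 : Type) [RCLike 𝕜] (X : Type) [NormedAddCommGroup X] [NormedSpace 𝕜 X] : Prop :=
  ∀ (x : ℕ → X) (a : X),
    (∀ f : X →L[𝕜] 𝕜, Filter.Tendsto (fun n => f (x n)) Filter.atTop (nhds (f a))) →
    Filter.Tendsto x Filter.atTop (nhds a)

end Pool.Agent.P.MP_1bacd4_an.CO
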