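import Pool.Agent.P.MP_1bacd4_an.CO.Notions
import Pool.Agent.P.MP_1bacd4_an.CxK

/-! Extension of scalars for operators between two spaces. -/

set_option autoImplicit false

namespace Pool.Agent.P.MP_1bacd4_an.CO

open RCLike

noncomputable section

variable {𝕜 X E X' E' : Type} [RCLike 𝕜] [NormedAddCommGroup X] [NormedSpace ℝ X]
  [NormedAddCommGroup E] [NormedSpace 𝕜 E] {i : X → E} {p q : E → X}
  [NormedAddCommGroup X'] [NormedSpace ℝ X'] [NormedAddCommGroup E'] [NormedSpace 𝕜 E']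
  {i' : X' → E'} {p' q' : E' → X'}

theorem ext_prod (h : Ext 𝕜 X E i p q) (h' : Ext 𝕜 X' E' i' p' q') :
    Ext 𝕜 (X × X') (E × E') (Prod.map i i') (Prod.map p p') (Prod.map q q') where
  i_add := fun x y => Prod.ext (h.i_add x.1 y.1) (h'.i_add x.2 y.2)
  i_smul := fun r x => Prod.ext (h.i_smul r x.1) (h'.i_smul r x.2)
  i_le := fun x => max_le_max (h.i_le x.1) (h'.i_le x.2)
  p_add := fun x y => Prod.ext (h.p_add x.1 y.1) (h'.p_add x.2 y.2)
  q_add := fun x y => Prod.ext (h.q_add x.1 y.1) (h'.q_add x.2 y.2)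
  p_smul := fun c x => Prod.ext (h.p_smul c x.1) (h'.p_smul c x.2)
  q_smul := fun c x => Prod.ext (h.q_smul c x.1) (h'.q_smul c x.2)
  p_le := fun x => max_le_max (h.p_le x.1) (h'.p_le x.2)
  q_le := fun x => max_le_max (h.q_le x.1) (h'.q_le x.2)
  p_i := fun x => Prod.ext (h.p_i x.1) (h'.p_i x.2)
  dec := fun x => Prod.ext (h.dec x.1) (h'.dec x.2)

theorem nuc_two (h : Ext 𝕜 X E i p q) (h' : Ext 𝕜 X' E' i' p' q')
    (hX : ∀ S : X →L[ℝ] X', ∃ D, NucC (fun w : X × X' => ((0, S w.1) : X × X')) D)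
    (T : E →L[𝕜] E') : IsNuclearMap 𝕜 T := by
  have hb : ∀ x, ‖T (i x)‖ ≤ ‖T‖ * ‖x‖ := fun x =>
    (T.le_opNorm _).trans (mul_le_mul_of_nonneg_left (h.i_le x) (norm_nonneg T))
  let S1 : X →L[ℝ] X' := LinearMap.mkContinuous
    { toFun := fun x => p' (T (i x))
      map_add' := fun x y => by rw [h.i_add, map_add, h'.p_add]
      map_smul' := fun r x => by
        rw [h.i_smul, map_smul, h'.p_smul]
        simp } ‖T‖ fun x => (h'.p_le _).trans (hb x)
  let S2 : X →L[ℝ] X' := LinearMap.mkContinuous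
    { toFun := fun x => q' (T (i x))
      map_add' := fun x y => by rw [h.i_add, map_add, h'.q_add]
      map_smul' := fun r x => by
        rw [h.i_smul, map_smul, h'.q_smul]
        simp } ‖T‖ fun x => (h'.q_le _).trans (hb x)
  obtain ⟨C1, I1, _, f1, y1, hs1, -, h1⟩ := hX S1
  obtain ⟨C2, I2, _, f2, y2, hs2, -, h2⟩ := hX S2
  have k := ext_prod h h'
  obtain ⟨f, y, hs, hf⟩ := Ext.to_nat (J := I1 ⊕ I2)
    (Sum.elim (fun j => k.fc (f1 j)) fun j => k.fc (f2 j))
    (Sum.elim (fun j => (1 : 𝕜) • Prod.map i i' (y1 j)) fun j => (I : 𝕜) • Prod.map i i' (y2 j))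
    (Summable.sum _ (k.summable_fc hs1 norm_one.le) (k.summable_fc hs2 Ext.norm_I_le)) _
    fun x => HasSum.sum (f := fun j : I1 ⊕ I2 =>
      (Sum.elim (fun j => k.fc (f1 j)) fun j => k.fc (f2 j)) j x •
        (Sum.elim (fun j => (1 : 𝕜) • Prod.map i i' (y1 j))
          fun j => (I : 𝕜) • Prod.map i i' (y2 j)) j)
      (k.hasSum_fc h1 1 x) (k.hasSum_fc h2 I x)
  refine ⟨fun n => (f n).comp (ContinuousLinearMap.inl 𝕜 E E'), fun n => (y n).2,
    Summable.of_nonneg_of_le (fun n => by positivity) (fun n => ?_) hs, fun x => ?_⟩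
  · refine mul_le_mul (ContinuousLinearMap.opNorm_le_bound _ (norm_nonneg _) fun z => ?_)
      (norm_snd_le _) (norm_nonneg _) (norm_nonneg _)
    simpa using (f n).le_opNorm (z, 0)
  · have h3 := (hf (x, 0)).map (AddMonoidHom.snd E E') continuous_snd
    have key : ∀ w : X, T (i w) = i' (S1 w) + (I : 𝕜) • i' (S2 w) := fun w => h'.dec (T (i w))
    have e : T x = T (i (p x)) + (I : 𝕜) • T (i (q x)) := by
      rw [← map_smul, ← map_add, ← h.dec]
    rw [e, key, key]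
    refine (congrArg (fun a => HasSum _ a) ?_).mp h3
    change (1 : 𝕜) • (i' (S1 (p x)) + (I : 𝕜) • i' (S1 (q x))) +
      (I : 𝕜) • (i' (S2 (p x)) + (I : 𝕜) • i' (S2 (q x))) = _
    simp only [one_smul, smul_add]
    abel

end

end Pool.Agent.P.MP_1bacd4_an.CO
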