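import Pool.Agent.P.MP_1bacd4_an.Glue
import Pool.Agent.P.MP_1bacd4_an.Seed
import Pool.Agent.P.MP_1bacd4_an.Rec
import Pool.Agent.P.MP_1bacd4_an.Exist
import Pool.Agent.P.MP_1bacd4_an.SchurP
import Pool.Agent.P.MP_1bacd4_an.CxK

set_option autoImplicit false

namespace Pool.Agent.P.MP_1bacd4_an.CO.SchurSpaceOld

open Filter Topology Pool.Agent.P.MP_1bacd4_an

/-- Over the real and over the complex field there is a separable infinite dimensional Banach
space with the Schur property on which every operator is a scalar plus a nuclear operator. -/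
theorem result (𝕜 : Type) [RCLike 𝕜] :
    ∃ (X : Type) (_ : NormedAddCommGroup X) (_ : NormedSpace 𝕜 X) (_ : CompleteSpace X),
      ¬ FiniteDimensional 𝕜 X ∧ TopologicalSpace.SeparableSpace X ∧
      (∀ (x : ℕ → X) (a : X),
        (∀ f : X →L[𝕜] 𝕜, Tendsto (fun n => f (x n)) atTop (nhds (f a))) →
        Tendsto x atTop (nhds a)) ∧
      ∀ T : X →L[𝕜] X, ∃ c : 𝕜, ∃ f : ℕ → (X →L[𝕜] 𝕜), ∃ y : ℕ → X,
        Summable (fun n => ‖f n‖ * ‖y n‖) ∧
        ∀ x : X, HasSum (fun n => f n x • y n) (T x - c • x) := by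
  have hR : S_Rand := rand (exist (iso conc mom net) (dec net (chain conc mom)) (decoup mom))
  obtain ⟨X, Y, _, _, _, _, _, β, C, h⟩ := recu cube adm
    (stepA (lift cube) push (pushCT cube) pushBil)
    (stepB cube (lift cube) push (pushCT cube) pushBil (seed cube (ext cube)) hR) lim
  obtain ⟨E, _, _, _, i, p, q, hE⟩ := exists_ext 𝕜 X
  have := sepP h.chain
  refine ⟨E, inferInstance, inferInstance, inferInstance, hE.infdim (realSol h).1, hE.sep,
    fun x a hx => ?_, hE.nuc (realSol h).2⟩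
  rw [← tendsto_sub_nhds_zero_iff]
  refine hE.schur (schurP adm h.chain) _ fun f => ?_
  simp only [map_sub]
  exact tendsto_sub_nhds_zero_iff.2 (hx f)

end Pool.Agent.P.MP_1bacd4_an.CO.SchurSpaceOld
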