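import Pool.Agent.P.MP_1bacd4_an.Rec
import Pool.Agent.P.MP_1bacd4_an.Push

/-! The cross step, obtained from the main step on an l1 sum. -/

set_option autoImplicit false

namespace Pool.Agent.P.MP_1bacd4_an.CO

open Finset

noncomputable section

section Gen

variable {ι E E' G : Type} [Fintype ι] [NormedAddCommGroup E] [NormedSpace ℝ E]
  [NormedAddCommGroup E'] [NormedSpace ℝ E'] [NormedAddCommGroup G] [NormedSpace ℝ G]

theorem wl_clm (p : G →L[ℝ] E) (hp : ∀ z, ‖p z‖ ≤ ‖z‖) {x : ι → G} {s : ℝ} (hx : WL x s) :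
    WL (fun i => p (x i)) s := fun a => by
  refine le_trans ?_ (hx a)
  refine le_trans (le_of_eq ?_) (hp _)
  simp only [map_sum, map_smul]

theorem wl_comp (a : E →L[ℝ] G) (ha : ∀ z, ‖a z‖ ≤ ‖z‖) {φ : ι → G →L[ℝ] ℝ} {s : ℝ}
    (hφ : WL φ s) : WL (fun i => (φ i).comp a) s := fun c => by
  refine le_trans (ContinuousLinearMap.opNorm_le_bound _ (norm_nonneg _) fun z => ?_) (hφ c)
  have h4 := ((∑ b, c b • φ b).le_opNorm (a z)).trans
    (mul_le_mul_of_nonneg_left (ha z) (norm_nonneg _))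
  simpa using h4

theorem rad_clm (p : G →L[ℝ] E) (x : ι → G) (ε : ι → Bool) :
    rad (fun i => p (x i)) ε = p (rad x ε) := by
  simp only [rad, map_smul, map_sum]

theorem ct_sum (a : E →L[ℝ] G) (a' : E' →L[ℝ] G) (p : G →L[ℝ] E) (p' : G →L[ℝ] E')
    (ha : ∀ z, ‖a z‖ ≤ ‖z‖) (ha' : ∀ z, ‖a' z‖ ≤ ‖z‖) (dec : ∀ z, z = a (p z) + a' (p' z))
    {K M : ℝ} (hM : ∀ z, ‖p z‖ + ‖p' z‖ ≤ M * ‖z‖) (hK : 0 ≤ K) (h : CT K E) (h' : CT K E') :
    CT (K * M) G := by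
  intro ι _ _ φ x hφ
  have h1 := h ι _ (fun i => p (x i)) (wl_comp a ha hφ)
  have h2 := h' ι _ (fun i => p' (x i)) (wl_comp a' ha' hφ)
  have h3 : ∑ i, φ i (x i) =
      ∑ i, ((φ i).comp a) (p (x i)) + ∑ i, ((φ i).comp a') (p' (x i)) := by
    rw [← sum_add_distrib]
    refine sum_congr rfl fun i _ => ?_
    rw [ContinuousLinearMap.comp_apply, ContinuousLinearMap.comp_apply, ← map_add, ← dec]
  simp only [rad_clm] at h1 h2
  have h4 : (av fun ε => ‖p (rad x ε)‖) + (av fun ε => ‖p' (rad x ε)‖) ≤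
      M * av fun ε => ‖rad x ε‖ := by
    simp only [av, smul_eq_mul]
    rw [← mul_add, ← sum_add_distrib, mul_left_comm, mul_sum _ _ M]
    exact mul_le_mul_of_nonneg_left (sum_le_sum fun ε _ => hM _)
      (inv_nonneg.2 (Nat.cast_nonneg _))
  have h5 := mul_le_mul_of_nonneg_left h4 hK
  rw [h3, mul_assoc]
  linarith

/-- An l1 sum of two spaces. -/
structure Sum1 (a : E →ₗᵢ[ℝ] G) (a' : E' →ₗᵢ[ℝ] G) (p : G →L[ℝ] E) (p' : G →L[ℝ] E') :
    Prop where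
  dec : ∀ z, z = a (p z) + a' (p' z)
  norm : ∀ z, ‖p z‖ + ‖p' z‖ = ‖z‖
  pa : ∀ x, p (a x) = x
  pa' : ∀ x, p (a' x) = 0
  p'a : ∀ x, p' (a x) = 0
  p'a' : ∀ x, p' (a' x) = x

theorem exists_sum1 (E E' : Type) [NormedAddCommGroup E] [NormedSpace ℝ E]
    [FiniteDimensional ℝ E] [NormedAddCommGroup E'] [NormedSpace ℝ E'] [FiniteDimensional ℝ E'] :
    ∃ (G : Type) (_ : NormedAddCommGroup G) (_ : NormedSpace ℝ G) (_ : FiniteDimensional ℝ G)
      (a : E →ₗᵢ[ℝ] G) (a' : E' →ₗᵢ[ℝ] G) (p : G →L[ℝ] E) (p' : G →L[ℝ] E'), Sum1 a a' p p' := by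
  let e := WithLp.prodContinuousLinearEquiv 1 ℝ E E'
  have hn : ∀ z : WithLp 1 (E × E'), ‖z‖ = ‖(e z).1‖ + ‖(e z).2‖ := fun z =>
    WithLp.prod_norm_eq_of_L1 z
  refine ⟨WithLp 1 (E × E'), inferInstance, inferInstance,
    e.symm.toLinearEquiv.finiteDimensional,
    ⟨e.symm.toLinearEquiv.toLinearMap ∘ₗ LinearMap.inl ℝ E E', fun x => ?_⟩,
    ⟨e.symm.toLinearEquiv.toLinearMap ∘ₗ LinearMap.inr ℝ E E', fun x => ?_⟩,
    (ContinuousLinearMap.fst ℝ E E').comp e.toContinuousLinearMap,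
    (ContinuousLinearMap.snd ℝ E E').comp e.toContinuousLinearMap,
    fun z => e.injective ?_, fun z => (hn z).symm, fun _ => rfl, fun _ => rfl, fun _ => rfl,
    fun _ => rfl⟩
  · rw [hn]
    change ‖x‖ + ‖(0 : E')‖ = _
    rw [norm_zero, add_zero]
  · rw [hn]
    change ‖(0 : E)‖ + ‖x‖ = _
    rw [norm_zero, zero_add]
  · rw [map_add]
    change e z = ((e z).1, 0) + (0, (e z).2)
    simp

variable {a : E →ₗᵢ[ℝ] G} {a' : E' →ₗᵢ[ℝ] G} {p : G →L[ℝ] E} {p' : G →L[ℝ] E'}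

theorem Sum1.ct (h : Sum1 a a' p p') {K : ℝ} (hK : 0 ≤ K) (h1 : CT K E) (h2 : CT K E') :
    CT K G := by
  have := ct_sum a.toContinuousLinearMap a'.toContinuousLinearMap p p'
    (fun z => (a.norm_map z).le) (fun z => (a'.norm_map z).le) h.dec (M := 1)
    (fun z => by rw [one_mul, h.norm]) hK h1 h2
  rwa [mul_one] at this

theorem Sum1.adm (h : Sum1 a a' p p') : AdmS (LinearMap.range a'.toLinearMap) ⊤ := by
  refine ⟨le_top, fun z b => p' z = 0 ∧ ‖z‖ ≤ b, fun z b k => ⟨trivial, k.2⟩,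
    fun z b z' b' k k' => ⟨by rw [map_add, k.1, k'.1, add_zero],
      (norm_add_le _ _).trans (add_le_add k.2 k'.2)⟩,
    fun z b k => ⟨by rw [map_neg, k.1, neg_zero], by rw [norm_neg]; exact k.2⟩,
    fun z _ δ hδ => ⟨a' (p' z), ⟨p' z, rfl⟩, ‖p z‖, ⟨by rw [map_sub, h.p'a', sub_self], ?_⟩, ?_⟩,
    ?_⟩
  · rw [← h.norm, map_sub, map_sub, h.p'a', h.pa', sub_self, sub_zero, norm_zero, add_zero]
  · rw [a'.norm_map, h.norm]
    linarith
  · rintro _ ⟨x, rfl⟩ b ⟨k1, k2⟩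
    have k3 : x = 0 := (h.p'a' x).symm.trans k1
    subst k3
    simp only [map_zero, norm_zero] at k2 ⊢
    linarith

end Gen

/-- Cross step. -/
def StepX (K c : ℝ) : Prop :=
  ∀ (s s' : Stg K) (n : ℕ) (y : Fin n → s.F) (x : Fin n → s'.E), WL y 1 → WL x 1 →
    ∃ (t t' : Stg K) (h : Hom s t) (h' : Hom s' t'),
      ∀ b : t.F →L[ℝ] t'.E →L[ℝ] ℝ, Bd b → c ^ 2 * |∑ i, b (h.jF (y i)) (h'.jE (x i))| ≤ 1

theorem stepX (hA : S_Adm) {K c : ℝ} (hK : 0 ≤ K) (hB : StepB K c) : StepX K c := by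
  intro s s' n y x hy hx
  obtain ⟨E, _, _, _, a, a', p, p', hE⟩ := exists_sum1 s.E s'.E
  obtain ⟨F, _, _, _, b, b', q, q', hF⟩ := exists_sum1 s.F s'.F
  let β : F →L[ℝ] E →L[ℝ] ℝ := s.β.bilinearComp q p + s'.β.bilinearComp q' p'
  have hβ : ∀ v w, β v w = s.β (q v) (p w) + s'.β (q' v) (p' w) := fun _ _ => rfl
  have hb : Bd β := fun v w => by
    rw [hβ, ← hE.norm, ← hF.norm]
    have h1 := s.bd (q v) (p w)
    have h2 := s'.bd (q' v) (p' w)
    have h3 := abs_add_le (s.β (q v) (p w)) (s'.β (q' v) (p' w))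
    have h4 := mul_nonneg (norm_nonneg (q v)) (norm_nonneg (p' w))
    have h5 := mul_nonneg (norm_nonneg (q' v)) (norm_nonneg (p w))
    nlinarith
  obtain ⟨u, g, h1, -⟩ := hB ⟨E, F, β, hb, hE.ct hK s.cE s'.cE, hF.ct hK s.cF s'.cF⟩ n
    (fun i => b (y i)) (fun i => a' (x i)) ((RecA.wl_map b _ _).2 hy) ((RecA.wl_map a' _ _).2 hx)
    (by
      change |∑ i, β (b (y i)) (a' (x i))| ≤ 1
      simp [hβ, hE.pa', hF.p'a])
  have hid : ∀ (V : Type) [NormedAddCommGroup V] [NormedSpace ℝ V],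
      AdmS (LinearMap.range (LinearIsometry.id : V →ₗᵢ[ℝ] V).toLinearMap) ⊤ := fun V _ _ => by
    have : LinearMap.range (LinearIsometry.id : V →ₗᵢ[ℝ] V).toLinearMap = ⊤ :=
      LinearMap.range_eq_top.2 fun z => ⟨z, rfl⟩
    rw [this]
    exact hA.refl V ⊤
  refine ⟨⟨s.E, u.F, u.β.bilinearComp (ContinuousLinearMap.id ℝ _)
      (g.jE.comp a).toContinuousLinearMap, fun v w => ?_, s.cE, u.cF⟩,
    ⟨u.E, s'.F, u.β.bilinearComp (g.jF.comp b').toContinuousLinearMap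
      (ContinuousLinearMap.id ℝ _), fun v w => ?_, u.cE, s'.cF⟩,
    ⟨LinearIsometry.id, g.jF.comp b, fun v w => ?_, hid _⟩,
    ⟨g.jE.comp a', LinearIsometry.id, fun v w => ?_, ?_⟩, h1⟩
  · have := u.bd v ((g.jE.comp a) w)
    rwa [LinearIsometry.norm_map] at this
  · have := u.bd ((g.jF.comp b') v) w
    rwa [LinearIsometry.norm_map] at this
  · refine (g.comp (b v) (a w)).trans ?_
    change β (b v) (a w) = _
    simp [hβ, hE.pa, hF.pa, hF.p'a]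
  · refine (g.comp (b' v) (a' w)).trans ?_
    change β (b' v) (a' w) = _
    simp [hβ, hE.p'a', hF.p'a', hF.pa']
  · have h2 := hA.map _ _ g.jE _ _ hE.adm
    rw [Submodule.map_top, ← LinearMap.range_comp] at h2
    exact hA.trans _ _ _ _ h2 g.adm

end

end Pool.Agent.P.MP_1bacd4_an.CO
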