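import Pool.Agent.P.MP_1bacd4_an.CO.Step

/-! A binary tree of stages. -/

set_option autoImplicit false

namespace Pool.Agent.P.MP_1bacd4_an.CO

open Finset Filter Topology RecA

noncomputable section

/-- A cross request is satisfied. -/
def OutX (c : ℝ) {E F : Type} [NormedAddCommGroup E] [NormedSpace ℝ E] [NormedAddCommGroup F]
    [NormedSpace ℝ F] (r : Rq E F) : Prop :=
  WL r.2.2.1 1 → WL r.2.2.2 1 →
    ∀ b : F →L[ℝ] E →L[ℝ] ℝ, Bd b → c ^ 2 * |∑ i, b (r.2.2.1 i) (r.2.2.2 i)| ≤ 1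

theorem OutX.map {c : ℝ} {E F E' F' : Type} [NormedAddCommGroup E] [NormedSpace ℝ E]
    [NormedAddCommGroup F] [NormedSpace ℝ F] [NormedAddCommGroup E'] [NormedSpace ℝ E']
    [NormedAddCommGroup F'] [NormedSpace ℝ F'] (a : E →ₗᵢ[ℝ] E') (b : F →ₗᵢ[ℝ] F')
    {r : Rq E F} (h : OutX c r) : OutX c (r.map a b) := by
  obtain ⟨x0, n, y0, x1⟩ := r
  intro h3 h4 B hB
  refine h ((wl_map b _ _).1 h3) ((wl_map a _ _).1 h4)
    (B.bilinearComp b.toContinuousLinearMap a.toContinuousLinearMap) fun y x => ?_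
  have := hB (b y) (a x)
  rwa [b.norm_map, a.norm_map] at this

variable {K c : ℝ}

/-- The identity map of a stage. -/
def idH (hA : S_Adm) (s : Stg K) : Hom s s where
  jE := LinearIsometry.id
  jF := LinearIsometry.id
  comp := fun _ _ => rfl
  adm := by
    have : LinearMap.range (LinearIsometry.id : s.E →ₗᵢ[ℝ] s.E).toLinearMap = ⊤ :=
      LinearMap.range_eq_top.2 fun z => ⟨z, rfl⟩
    rw [this]
    exact hA.refl _ ⊤

theorem stepX' (hA : S_Adm) (hX : StepX K c) (s s' : Stg K) (r : Rq s'.E s.F) :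
    ∃ (t t' : Stg K) (h : Hom s t) (h' : Hom s' t'), OutX c (r.map h'.jE h.jF) := by
  by_cases hr : WL r.2.2.1 1 ∧ WL r.2.2.2 1
  · obtain ⟨t, t', h, h', k⟩ := hX s s' _ _ _ hr.1 hr.2
    exact ⟨t, t', h, h', fun _ _ => k⟩
  · exact ⟨s, s', idH hA s, idH hA s', fun h1 h2 => absurd ⟨h1, h2⟩ hr⟩

theorem multi (hA : S_Adm) (h1 : StepA K) (h2 : StepB K c) (hX : StepX K c) {N : Type}
    [DecidableEq N] (S : N → Stg K) (r : ∀ t u, Rq (S u).E (S t).F) (P : Finset (N × N)) :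
    ∃ (S' : N → Stg K) (H : ∀ t, Hom (S t) (S' t)),
      (∀ t, ¬ Function.Surjective (H t).jE ∧ Out c (S' t).β ((r t t).map (H t).jE (H t).jF)) ∧
      ∀ p ∈ P, p.1 ≠ p.2 → OutX c ((r p.1 p.2).map (H p.2).jE (H p.1).jF) := by
  induction P using Finset.induction_on with
  | empty =>
    choose S' H hH using fun t => step hA h1 h2 (S t) (r t t)
    exact ⟨S', H, hH, fun p hp => absurd hp (notMem_empty p)⟩
  | insert p P _ ih =>
    obtain ⟨S', H, k1, k2⟩ := ih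
    by_cases hp : p.1 = p.2
    · refine ⟨S', H, k1, fun p' hp' hn => ?_⟩
      rcases mem_insert.1 hp' with rfl | hp'
      · exact absurd hp hn
      · exact k2 p' hp' hn
    obtain ⟨t, t', g, g', hx⟩ :=
      stepX' hA hX (S' p.1) (S' p.2) ((r p.1 p.2).map (H p.2).jE (H p.1).jF)
    obtain ⟨G, G1, G2⟩ : ∃ G : ∀ v, Σ s, Hom (S' v) s, G p.1 = ⟨t, g⟩ ∧ G p.2 = ⟨t', g'⟩ :=
      ⟨Function.update (Function.update (fun v => ⟨S' v, idH hA _⟩) p.1 ⟨t, g⟩) p.2 ⟨t', g'⟩,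
        by rw [Function.update_of_ne hp, Function.update_self], Function.update_self ..⟩
    refine ⟨fun v => (G v).1, fun v => comp hA (H v) (G v).2, fun v => ⟨fun hs => (k1 v).1
      fun z => ?_, (k1 v).2.map (G v).2.jE (G v).2.jF (G v).2.comp⟩, fun p' hp' hn => ?_⟩
    · obtain ⟨e, he⟩ := hs ((G v).2.jE z)
      exact ⟨e, (G v).2.jE.injective he⟩
    · rcases mem_insert.1 hp' with rfl | hp'
      · have e : ∀ (A : Σ s, Hom (S' p'.1) s) (B : Σ s, Hom (S' p'.2) s), A = ⟨t, g⟩ →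
            B = ⟨t', g'⟩ →
            OutX c (((r p'.1 p'.2).map (H p'.2).jE (H p'.1).jF).map B.2.jE A.2.jF) := by
          rintro _ _ rfl rfl
          exact hx
        exact e _ _ G1 G2
      · exact (k2 p' hp' hn).map (G p'.2).2.jE (G p'.1).2.jF

theorem exists_tree (hK : 0 ≤ K) (d : ∀ s s' : Stg K, ℕ → Rq s.E s'.F)
    (hs : ∀ (m : ℕ) (S : (Fin m → Bool) → Stg K) (r : ∀ t u, Rq (S u).E (S t).F),
      ∃ (S' : (Fin m → Bool) → Stg K) (H : ∀ t, Hom (S t) (S' t)),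
      (∀ t, ¬ Function.Surjective (H t).jE ∧ Out c (S' t).β ((r t t).map (H t).jE (H t).jF)) ∧
      ∀ t u, t ≠ u → OutX c ((r t u).map (H u).jE (H t).jF)) :
    ∃ (s : (ℕ → Bool) → ℕ → Stg K) (h : ∀ σ m, Hom (s σ m) (s σ (m + 1)))
      (q : ∀ σ τ m, ℕ → ℕ → Rq (s τ m).E (s σ m).F),
      (∀ σ τ m, q σ τ m m = d (s τ m) (s σ m)) ∧
      (∀ σ τ m n k, n ≠ m + 1 →
        q σ τ (m + 1) n k = (q σ τ m n k).map (h τ m).jE (h σ m).jF) ∧
      (∀ σ m, ¬ Function.Surjective (h σ m).jE ∧ Out c (s σ (m + 1)).β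
        ((q σ σ m m.unpair.1 m.unpair.2).map (h σ m).jE (h σ m).jF)) ∧
      ∀ σ τ, σ ≠ τ → ∀ᶠ m in atTop,
        OutX c ((q σ τ m m.unpair.1 m.unpair.2).map (h τ m).jE (h σ m).jF) := by
  choose S H hH hX using hs
  let T : ℕ → Type 1 := fun m =>
    Σ s : (Fin m → Bool) → Stg K, ∀ t u, ℕ → ℕ → Rq (s u).E (s t).F
  let par : ∀ m, (Fin (m + 1) → Bool) → Fin m → Bool := fun m t i => t i.castSucc
  let nx : ∀ m, T m → T (m + 1) := fun m a =>
    ⟨fun t => S m a.1 (fun t u => a.2 t u m.unpair.1 m.unpair.2) (par m t),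
      fun t u n => if n = m + 1 then d _ _ else fun k =>
        (a.2 (par m t) (par m u) n k).map (H m a.1 _ (par m u)).jE (H m a.1 _ (par m t)).jF⟩
  let a : ∀ m, T m := fun m =>
    Nat.rec (motive := T) ⟨fun _ => triv hK, fun _ _ _ => d _ _⟩ nx m
  refine ⟨fun σ m => (a m).1 fun i => σ i,
    fun σ m => H m (a m).1 (fun t u => (a m).2 t u m.unpair.1 m.unpair.2) fun i => σ i,
    fun σ τ m => (a m).2 (fun i => σ i) fun i => τ i, fun σ τ m => ?_, fun σ τ m n k hn => ?_,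
    fun σ m => hH m _ _ _, fun σ τ hn => ?_⟩
  · cases m with
    | zero => rfl
    | succ m => exact if_pos rfl
  · exact congrFun (if_neg hn) k
  · obtain ⟨i, hi⟩ := Function.ne_iff.1 hn
    filter_upwards [eventually_gt_atTop i] with m hm
    exact hX m _ _ _ _ fun e => hi (congrFun e ⟨i, hm⟩)

/-- A dense sequence of requests for a pair of stages. -/
theorem exists_den2 (s s' : Stg K) : ∃ d : ℕ → Rq s.E s'.F, ∀ n : ℕ,
    Dense {p : s.E × (Fin n → s'.F) × (Fin n → s.E) | ∃ k, d k = (p.1, ⟨n, p.2⟩)} :=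
  exists_den ⟨s.E, s'.F, 0, fun y x => by simpa using mul_nonneg (norm_nonneg y) (norm_nonneg x),
    s.cE, s'.cF⟩

end

end Pool.Agent.P.MP_1bacd4_an.CO
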